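import Pool.Agent.H18.CGR.Stmts

set_option autoImplicit false

namespace Pool.CGR

namespace H12CYC

theorem T_nil {α : Type} [DecidableEq α] (κ : α → List α → ℂ) (j : α) (v : List α) (c : ℂ) :
    T κ j (Finsupp.single v c) [] = c * κ j v := by
  have h : Finsupp.single v c = c • Finsupp.single v (1 : ℂ) := by
    rw [Finsupp.smul_single, smul_eq_mul, mul_one]
  rw [h, map_smul, T_single, Finsupp.smul_apply, Finsupp.add_apply, Finsupp.finsetSum_apply,
    smul_eq_mul]
  congr 1
  rw [Finsupp.single_apply, if_neg (by simp), zero_add,
    Finset.sum_eq_single v.length]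
  · rw [List.drop_length, List.take_length, Finsupp.single_eq_same]
  · intro k hk hne
    rw [Finsupp.single_apply, if_neg]
    intro h0
    rw [List.drop_eq_nil_iff] at h0
    have := Finset.mem_range.mp hk
    omega
  · intro hn
    exact absurd (Finset.mem_range.mpr (Nat.lt_succ_self _)) hn

end H12CYC

theorem cyc_thm (hCYA : CYAStmt) (hSPN : SPNStmt) : CYCStmt := by
  intro α _ κ h i j u
  have key : ∀ f : List α →₀ ℂ, T κ j (Lf κ i f) [] = T κ i (T κ j f) [] := by
    have hw : ∀ w, T κ j (Lf κ i (nn κ w)) [] = T κ i (T κ j (nn κ w)) [] := by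
      intro w
      rw [← hCYA α κ h i w, ← nn_append, ← nn_append, ← nn_append, List.cons_append, h i]
    intro f
    have hf : f ∈ Submodule.span ℂ (Set.range (nn κ)) := by
      induction f using Finsupp.induction_linear with
      | zero => exact Submodule.zero_mem _
      | add f g hf hg => exact Submodule.add_mem _ hf hg
      | single v c =>
        have e : Finsupp.single v c = c • Finsupp.single v (1 : ℂ) := by
          rw [Finsupp.smul_single, smul_eq_mul, mul_one]
        rw [e]
        exact Submodule.smul_mem _ _ (hSPN α κ v)
    induction hf using Submodule.span_induction with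
    | mem x hx =>
      obtain ⟨w, rfl⟩ := hx
      exact hw w
    | zero => simp only [map_zero]
    | add x y _ _ hx hy => simp only [map_add, Finsupp.add_apply, hx, hy]
    | smul a x _ hx => simp only [map_smul, Finsupp.smul_apply, hx]
  have h1 := key (Finsupp.single u 1)
  rw [Lf_single, T_single, map_add, map_add, map_sum, map_sum, Finsupp.add_apply,
    Finsupp.add_apply, Finsupp.finsetSum_apply, Finsupp.finsetSum_apply] at h1
  simp only [H12CYC.T_nil, one_mul] at h1
  have h2 : ∑ x ∈ Finset.range (u.length + 1), κ i (List.drop x u) * κ j (List.take x u) =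
      ∑ x ∈ Finset.range (u.length + 1), κ j (List.take x u) * κ i (List.drop x u) :=
    Finset.sum_congr rfl fun _ _ => mul_comm _ _
  rw [h2] at h1
  exact add_right_cancel h1

end Pool.CGR
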